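import Pool.Agent.P.MP_3eba60_lc.Defs
import Pool.Agent.P.MP_3eba60_lc.Main

open Pool.Agent.P.MP_3eba60_lc

/-- A real which is Bernoulli random in base `b` (relative to any oracles) is biased normal, with
the uniform densities, in every base `b'` multiplicatively independent of `b`. -/
theorem Pool.Agent.Results.MP_3eba60_lc.BernoulliNormal.result
    (b b' : ℕ) [NeZero b] [NeZero b'] (hb : 2 ≤ b) (hb' : 2 ≤ b')
    (hind : ∀ m n : ℕ, 0 < m → 0 < n → b ^ m ≠ b' ^ n)
    (p : Fin b → ℝ) (hp : IsDensity p) (O : Set (ℕ →. ℕ)) (x : ℝ) (hx : x ∈ Set.Icc (0 : ℝ) 1)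
    (hrand : IsMartinLofRandom O (bernoulli p) (Real.digits x b)) :
    ∃ q : Fin b' → ℝ, IsDensity q ∧ (∀ d, q d = 1 / b') ∧ IsBiasedNormal b' q x :=
  Pool.Agent.P.MP_3eba60_lc.main b b' hb hb' hind p hp O x hx hrand
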