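import Pool.Agent.P.MP_3eba60_lc.Defs
import Pool.Agent.P.MP_3eba60_lc.All

open Pool.Agent.P.MP_3eba60_lc

/-- For multiplicatively dependent bases, a real which is Bernoulli random in base `b` is biased
normal in base `b'` with respect to densities `q` exactly when `b = c ^ m`, `b' = c ^ n` with
`m, n` coprime and `p`, `q` are the products, over the base `c` digits, of one density `r`. -/
theorem Pool.Agent.Results.MP_3eba60_lc.DependentBases.result
    (b b' : ℕ) [NeZero b] [NeZero b'] (hb : 2 ≤ b) (_hb' : 2 ≤ b')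
    (hdep : ∃ M N : ℕ, 0 < M ∧ 0 < N ∧ b ^ M = b' ^ N)
    (p : Fin b → ℝ) (hp : IsDensity p) (O : Set (ℕ →. ℕ)) (x : ℝ) (_hx : x ∈ Set.Icc (0 : ℝ) 1)
    (hrand : IsMartinLofRandom O (bernoulli p) (Real.digits x b)) (q : Fin b' → ℝ) :
    (IsDensity q ∧ IsBiasedNormal b' q x) ↔
      ∃ c m n : ℕ, 2 ≤ c ∧ 0 < m ∧ 0 < n ∧ m.Coprime n ∧ b = c ^ m ∧ b' = c ^ n ∧
        ∃ r : ℕ → ℝ, (∀ e < c, 0 < r e) ∧ ∑ e ∈ Finset.range c, r e = 1 ∧
          (∀ d : Fin b, p d = ∏ i ∈ Finset.range m, r (d / c ^ i % c)) ∧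
          ∀ e : Fin b', q e = ∏ i ∈ Finset.range n, r (e / c ^ i % c) :=
  Pool.Agent.P.MP_3eba60_lc.dep_iff b b' hb hdep p hp O x hrand q
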